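import Pool.Agent.LibAlt.Final

namespace Pool.Agent.Results.MP_2692c1_al.Torsion3

open Pool.Agent.LibAlt

universe u v

/-- The ideal of the free nonassociative `Φ`-algebra on `X` generated by all associators
`(f,f,g)` and `(g,f,f)`: the smallest `Φ`-submodule that contains them and is closed under left
and right multiplication by arbitrary elements. -/
noncomputable def altIdeal (Φ : Type u) [CommRing Φ] (X : Type v) :
    Submodule Φ (FreeNonUnitalNonAssocAlgebra Φ X) :=
  sInf {I | (∀ f g : FreeNonUnitalNonAssocAlgebra Φ X,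
      associator f f g ∈ I ∧ associator g f f ∈ I) ∧
    ∀ a ∈ I, ∀ b : FreeNonUnitalNonAssocAlgebra Φ X, a * b ∈ I ∧ b * a ∈ I}

/-- The free alternative `Φ`-algebra on `X`, as a `Φ`-module. -/
abbrev AltFree (Φ : Type u) [CommRing Φ] (X : Type v) :=
  FreeNonUnitalNonAssocAlgebra Φ X ⧸ altIdeal Φ X

section scalars

variable (Φ : Type u) [CommRing Φ] (R : Type u) [CommRing R] [Algebra Φ R]

instance instTowerW : IsScalarTower Φ (W R) (W R) :=
  ⟨fun r a b => by
    rw [smul_eq_mul, smul_eq_mul, ← algebraMap_smul R r a, ← algebraMap_smul R r (a * b),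
      smul_mul_assoc]⟩

instance instCommW : SMulCommClass Φ (W R) (W R) :=
  ⟨fun r a b => by
    rw [smul_eq_mul, smul_eq_mul, ← algebraMap_smul R r b, ← algebraMap_smul R r (a * b),
      mul_smul_comm]⟩

end scalars

section

variable (Φ : Type u) [CommRing Φ]

/-- The lift of the torsion element to the free nonassociative algebra. -/
noncomputable def lft : FreeNonUnitalNonAssocAlgebra Φ ℕ :=
  tor (FreeNonUnitalNonAssocAlgebra.of Φ 0) (FreeNonUnitalNonAssocAlgebra.of Φ 1)
    (FreeNonUnitalNonAssocAlgebra.of Φ 2) (FreeNonUnitalNonAssocAlgebra.of Φ 3)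
    (FreeNonUnitalNonAssocAlgebra.of Φ 4) (FreeNonUnitalNonAssocAlgebra.of Φ 5)

theorem six_lft_mem : (6 : ℤ) • lft Φ ∈ altIdeal Φ ℕ := by
  unfold altIdeal
  rw [Submodule.mem_sInf]
  intro I hI
  exact six_tor_mem I hI _ _ _ _ _ _

theorem two_lft_not_mem (h3 : ¬ IsUnit (3 : Φ)) : (2 : ℤ) • lft Φ ∉ altIdeal Φ ℕ := by
  intro hmem
  let K : Ideal Φ := Ideal.span {(3 : Φ)}
  let R := Φ ⧸ K
  have hK : K ≠ ⊤ := by
    intro h
    exact h3 (Ideal.span_singleton_eq_top.1 h)
  have : Nontrivial R := Ideal.Quotient.nontrivial_iff.2 hK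
  have hR : (3 : R) = 0 := by
    have : (Ideal.Quotient.mk K) (3 : Φ) = 0 :=
      Ideal.Quotient.eq_zero_iff_mem.2 (Ideal.subset_span (Set.mem_singleton _))
    rw [map_ofNat] at this
    exact this
  let φ : FreeNonUnitalNonAssocAlgebra Φ ℕ →ₙₐ[Φ] W R :=
    FreeNonUnitalNonAssocAlgebra.lift Φ (fun n => (e (2 ^ n) : W R))
  let I : Submodule Φ (FreeNonUnitalNonAssocAlgebra Φ ℕ) :=
    { carrier := {a | φ a = 0}
      add_mem' := by
        intro a b ha hb
        change φ (a + b) = 0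
        rw [map_add, show φ a = 0 from ha, show φ b = 0 from hb, add_zero]
      zero_mem' := map_zero φ
      smul_mem' := by
        intro c a ha
        change φ (c • a) = 0
        rw [map_smul, show φ a = 0 from ha, smul_zero] }
  have hI : ∀ a, a ∈ I ↔ φ a = 0 := fun a => Iff.rfl
  have hφa : ∀ a b c, φ (associator a b c) = associator (φ a) (φ b) (φ c) := by
    intro a b c
    rw [associator, associator, map_sub, map_mul, map_mul, map_mul, map_mul]
  have hle : altIdeal Φ ℕ ≤ I := by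
    apply sInf_le
    refine ⟨fun f g => ⟨?_, ?_⟩, fun a ha b => ⟨?_, ?_⟩⟩
    · rw [hI, hφa]; exact (W_isAlt hR _ _).1
    · rw [hI, hφa]; exact (W_isAlt hR _ _).2
    · rw [hI, map_mul, (hI a).1 ha, zero_mul]
    · rw [hI, map_mul, (hI a).1 ha, mul_zero]
  have h1 : φ ((2 : ℤ) • lft Φ) = 0 := hle hmem
  have h2 : φ (lft Φ) = ((128 : ℤ) : R) • e 63 := by
    unfold lft
    rw [map_tor]
    have hof : ∀ n, φ (FreeNonUnitalNonAssocAlgebra.of Φ n) = e (2 ^ n) := by
      intro n
      exact FreeNonUnitalNonAssocAlgebra.lift_of_apply Φ _ n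
    rw [hof, hof, hof, hof, hof, hof]
    exact tor_e
  rw [map_zsmul, h2] at h1
  have h4 : (2 : ℤ) • (((128 : ℤ) : R) • (e 63 : W R)) = ((1 : R)) • (e 63 : W R) := by
    rw [← Int.cast_smul_eq_zsmul R (2 : ℤ), smul_smul]
    refine congrArg (fun z : R => z • (e 63 : W R)) ?_
    have : ((2 : ℤ) : R) * ((128 : ℤ) : R) = 3 * 85 + 1 := by push_cast; norm_num
    rw [this, hR, zero_mul, zero_add]
  rw [h4] at h1
  exact e_ne one_ne_zero h1

end

theorem not_free_of_torsion (Φ : Type u) [CommRing Φ] (M : Type v) [AddCommGroup M] [Module Φ M]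
    (r : Φ) (hr : r ∈ nonZeroDivisors Φ) (t : M) (ht : t ≠ 0) (hrt : r • t = 0) :
    ¬ Module.Free Φ M := by
  intro hfree
  let b := Module.Free.chooseBasis Φ M
  apply ht
  apply b.ext_elem
  intro i
  have h1 : b.repr (r • t) i = 0 := by rw [hrt, map_zero]; rfl
  rw [map_smul, Finsupp.smul_apply, smul_eq_mul] at h1
  rw [map_zero, Finsupp.zero_apply]
  exact (mul_left_mem_nonZeroDivisors_eq_zero_iff hr).1 h1

/-- If `3` is not invertible in the commutative ring `Φ`, then the free alternative `Φ`-algebra on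
countably many generators has a nonzero element `t` with `3 t = 0`; hence it is not a free
`Φ`-module if moreover `3` is not a zero divisor of `Φ`. This applies to the integers. -/
theorem result (Φ : Type u) [CommRing Φ] (h3 : ¬ IsUnit (3 : Φ)) :
    (∃ t : AltFree Φ ℕ, t ≠ 0 ∧ (3 : Φ) • t = 0) ∧
      ((3 : Φ) ∈ nonZeroDivisors Φ → ¬ Module.Free Φ (AltFree Φ ℕ)) := by
  have key : ∃ t : AltFree Φ ℕ, t ≠ 0 ∧ (3 : Φ) • t = 0 := by
    refine ⟨Submodule.Quotient.mk ((2 : ℤ) • lft Φ), ?_, ?_⟩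
    · rw [Ne, Submodule.Quotient.mk_eq_zero]
      exact two_lft_not_mem Φ h3
    · rw [← Submodule.Quotient.mk_smul, Submodule.Quotient.mk_eq_zero]
      have h6 := six_lft_mem Φ
      have : (3 : Φ) • ((2 : ℤ) • lft Φ) = (6 : ℤ) • lft Φ := by
        rw [show (3 : Φ) = ((3 : ℤ) : Φ) by norm_num, Int.cast_smul_eq_zsmul Φ, smul_smul]
        norm_num
      rw [this]
      exact h6
  refine ⟨key, fun hnz => ?_⟩
  obtain ⟨t, ht, h3t⟩ := key
  exact not_free_of_torsion Φ _ 3 hnz t ht h3t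

end Pool.Agent.Results.MP_2692c1_al.Torsion3
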